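import Pool.Agent.DFM.Stmts

/-!
# Squad DFM, row POS: existence of maps
-/

set_option autoImplicit false

namespace Pool.Agent.DFM.H3

open Pool.Agent.DFM

theorem half (hbot : BotStmt) (hcbn : CbnStmt) (hatt : AttStmt) (hlea : LeaStmt)
    (L : Type) [Lattice L] (hL : LCB L)
    (h : coi L < Cardinal.aleph0 ∨ (coi L = Cardinal.aleph0 ∧ cfl L < bNum)) : HasMap L := by
  rcases isEmpty_or_nonempty L with he | hne
  · exact ⟨fun _ => 0, fun x => (he.false x).elim⟩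
  rcases h with h | ⟨h1, h2⟩
  · exact hbot L hL (hlea L h hne)
  · obtain ⟨⟨S, hS, hS1⟩, ⟨D, hD, hD1⟩⟩ := hatt L
    refine hcbn L S D hL hS ?_ hD ?_
    · rw [← Cardinal.le_aleph0_iff_set_countable, hS1, h1]
    · rw [hD1]
      exact h2

theorem pos (hbot : BotStmt) (hcbn : CbnStmt) (hdua : DuaStmt) (hatt : AttStmt)
    (hlea : LeaStmt) : PosStmt := by
  intro L _ hL h
  obtain ⟨d1, d2, d3, d4⟩ := hdua L
  rcases h with h | h | h | h
  · exact half hbot hcbn hatt hlea L hL (Or.inl h)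
  · exact d4 (half hbot hcbn hatt hlea Lᵒᵈ (d1 hL) (Or.inl (d2 ▸ h)))
  · exact half hbot hcbn hatt hlea L hL (Or.inr h)
  · refine d4 (half hbot hcbn hatt hlea Lᵒᵈ (d1 hL) (Or.inr ⟨?_, ?_⟩))
    · exact d2.trans h.1
    · exact lt_of_eq_of_lt d3 h.2

end Pool.Agent.DFM.H3
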